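import Pool.Agent.D0H79.LV.Cha

/-!
The two bounds.
-/

set_option autoImplicit false
set_option linter.unusedSectionVars false

open scoped InnerProductSpace
open Filter Topology MeasureTheory

noncomputable section

namespace Pool.Agent.D0H79.LV

open H61R3NG Pool.Agent.D0H79.KC

section hil

variable {H : Type*} [NormedAddCommGroup H] [InnerProductSpace ℂ H] [CompleteSpace H]

/-- positive and negative parts -/
lemma pack' (B : H →L[ℂ] H) (hB : IsSelfAdjoint B) (M c : ℝ) (hM : ‖B‖ ≤ M) (hc : 0 ≤ c)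
    (hc2 : c * M ≤ 1) :
    ∃ D D' R : H →L[ℂ] H, (∀ T : H →L[ℂ] H, B * T = T * B → D * T = T * D) ∧ D * D' = 0 ∧
      R * R = D ∧ ContinuousLinearMap.adjoint D' = D' ∧ ContinuousLinearMap.adjoint R = R ∧
      B = ((0 : ℝ) : ℂ) • (1 : H →L[ℂ] H) + D - D' ∧ ‖1 - (c : ℂ) • D‖ ≤ 1 ∧
      ∀ n : ℕ, (1 - (c : ℂ) • D) ^ n = cfc (fun x : ℝ => (1 - c * max x 0) ^ n) B := by
  have c1 : ContinuousOn (fun x : ℝ => max x 0) (spectrum ℝ B) := by fun_prop
  have c2 : ContinuousOn (fun x : ℝ => max (-x) 0) (spectrum ℝ B) := by fun_prop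
  have c3 : ContinuousOn (fun x : ℝ => Real.sqrt (max x 0)) (spectrum ℝ B) := by fun_prop
  have hspec : ∀ x ∈ spectrum ℝ B, |x| ≤ M := by
    intro x hx
    have h1 : ‖x‖ ≤ ‖B‖ := by
      have h2 := norm_apply_le_norm_cfc (fun x : ℝ => x) B hx (by fun_prop) hB
      rwa [cfc_id' ℝ B hB] at h2
    exact h1.trans hM
  have hC : (1 - (c : ℂ) • cfc (fun x : ℝ => max x 0) B : H →L[ℂ] H)
      = cfc (fun x : ℝ => 1 - c * max x 0) B := by
    have h1 := cfc_sub (fun _ : ℝ => (1:ℝ)) (fun x : ℝ => c * max x 0) B (by fun_prop)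
      (by fun_prop)
    rw [h1, cfc_const_mul c _ B c1, cfc_const_one ℝ B hB]
    rfl
  refine ⟨cfc (fun x : ℝ => max x 0) B, cfc (fun x : ℝ => max (-x) 0) B,
    cfc (fun x : ℝ => Real.sqrt (max x 0)) B, ?_, ?_, ?_, ?_, ?_, ?_, ?_, ?_⟩
  · intro T hT
    have h1 : Commute B T := hT
    exact (h1.cfc_real (fun x : ℝ => max x 0)).eq
  · rw [← cfc_mul _ _ B c1 c2]
    have : (fun x : ℝ => max x 0 * max (-x) 0) = fun _ => (0:ℝ) := by
      funext x
      rcases le_total x 0 with h | h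
      · rw [max_eq_right h, zero_mul]
      · rw [max_eq_right (by linarith : -x ≤ 0), mul_zero]
    rw [this, cfc_const_zero]
  · rw [← cfc_mul _ _ B c3 c3]
    congr 1
    funext x
    exact Real.mul_self_sqrt (le_max_right _ _)
  · exact (cfc_predicate (fun x : ℝ => max (-x) 0) B : IsSelfAdjoint _)
  · exact (cfc_predicate (fun x : ℝ => Real.sqrt (max x 0)) B : IsSelfAdjoint _)
  · rw [Complex.ofReal_zero, zero_smul, zero_add, ← cfc_sub _ _ _ c1 c2]
    conv_lhs => rw [← cfc_id' ℝ B hB]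
    congr 1
    funext x
    rcases le_total x 0 with h | h
    · rw [max_eq_right h, max_eq_left (by linarith : 0 ≤ -x)]
      ring
    · rw [max_eq_left h, max_eq_right (by linarith : -x ≤ 0)]
      ring
  · rw [hC]
    refine norm_cfc_le zero_le_one fun x hx => ?_
    have h1 := hspec x hx
    have h2 : max x 0 ≤ M := max_le ((le_abs_self x).trans h1) ((abs_nonneg x).trans h1)
    have h3 : 0 ≤ max x 0 := le_max_right _ _
    have h4 : c * max x 0 ≤ 1 := (mul_le_mul_of_nonneg_left h2 hc).trans hc2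
    have h5 : 0 ≤ c * max x 0 := mul_nonneg hc h3
    rw [Real.norm_eq_abs, abs_le]
    constructor <;> linarith
  · intro n
    rw [hC, ← cfc_pow (fun x : ℝ => 1 - c * max x 0) n B (by fun_prop) hB]

/-- a bounded inverse square root of `B + ε` -/
lemma inv_sqrt' (B : H →L[ℂ] H) (hB : 0 ≤ B) (ε : ℝ) (hε : 0 < ε) :
    ∃ T : H →L[ℂ] H, IsSelfAdjoint T ∧ (∀ R : H →L[ℂ] H, B * R = R * B → T * R = R * T) ∧
      T * T * B + (ε : ℂ) • (T * T) = 1 ∧ T * B = B * T ∧
      T * T = cfc (fun x : ℝ => (max x 0 + ε)⁻¹) B := by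
  have hBs : IsSelfAdjoint B := hB.isSelfAdjoint
  set g : ℝ → ℝ := fun x => (Real.sqrt (max x 0 + ε))⁻¹ with hg
  have hpos : ∀ x : ℝ, 0 < max x 0 + ε := fun x => by
    have := le_max_right x 0
    linarith
  have hc : ContinuousOn g (spectrum ℝ B) := by
    apply Continuous.continuousOn
    rw [hg]
    refine Continuous.inv₀ (by fun_prop) fun x => ?_
    exact (Real.sqrt_pos.2 (hpos x)).ne'
  have hspec : ∀ x ∈ spectrum ℝ B, 0 ≤ x := fun x hx => spectrum_nonneg_of_nonneg hB hx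
  have h1 : cfc g B * cfc g B = cfc (fun x => g x * g x) B := (cfc_mul g g B hc hc).symm
  have hc2 : ContinuousOn (fun x => g x * g x) (spectrum ℝ B) := hc.mul hc
  have h3 : ((ε : ℂ) • cfc (fun x => g x * g x) B : H →L[ℂ] H)
      = cfc (fun x => ε * (g x * g x)) B := by
    rw [cfc_const_mul ε _ B hc2]
    rfl
  refine ⟨cfc g B, cfc_predicate g B, ?_, ?_, ?_, ?_⟩
  · intro R hR
    have h1 : Commute B R := hR
    exact (h1.cfc_real g).eq
  · have h2 : cfc (fun x => g x * g x) B * B = cfc (fun x => g x * g x * x) B := by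
      have e1 := cfc_mul (fun x => g x * g x) (fun x : ℝ => x) B hc2 (by fun_prop)
      rw [e1, cfc_id' ℝ B hBs]
    rw [h1, h2, h3]
    have e2 := cfc_add (a := B) (fun x => g x * g x * x) (fun x => ε * (g x * g x))
      (hc2.mul (by fun_prop)) (hc2.const_mul ε)
    rw [← e2, ← cfc_const_one ℝ B hBs]
    refine cfc_congr fun x hx => ?_
    have h4 := hpos x
    have h5 : max x 0 = x := max_eq_left (hspec x hx)
    have h6 : Real.sqrt (max x 0 + ε) * Real.sqrt (max x 0 + ε) = max x 0 + ε :=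
      Real.mul_self_sqrt h4.le
    have h7 : g x * g x * (x + ε) = 1 := by
      simp only [hg]
      rw [← mul_inv, h6, h5]
      rw [h5] at h4
      exact inv_mul_cancel₀ h4.ne'
    show g x * g x * x + ε * (g x * g x) = 1
    linarith
  · have h1 : Commute B B := Commute.refl B
    exact (h1.cfc_real g).eq
  · rw [h1]
    congr 1
    funext x
    simp only [hg]
    rw [← mul_inv, Real.mul_self_sqrt (hpos x).le]

end hil

variable {G : Type*} [Group G] {A : Type*} [Group A] (ι : A →* G)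
variable {Ω : Type*} [MeasurableSpace Ω] {μ : Measure Ω} [IsProbabilityMeasure μ]
variable {χ : Ω → A →* Circle}

/-- a level set is the limit of averages -/
lemma lim_level (b : Ω → ℝ) (hb : Measurable b) (M c : ℝ) (hbM : ∀ ω, |b ω| ≤ M) (hc : 0 < c)
    (hc2 : c * M ≤ 1) :
    Tendsto (fun n : ℕ => ∫ ω, (1 - c * max (b ω) 0) ^ n ∂μ) atTop
      (𝓝 (μ.real {ω | b ω ≤ 0})) := by
  have hrange : ∀ ω, 0 ≤ 1 - c * max (b ω) 0 ∧ 1 - c * max (b ω) 0 ≤ 1 := by
    intro ω
    have h2 : max (b ω) 0 ≤ M :=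
      max_le ((le_abs_self _).trans (hbM ω)) ((abs_nonneg _).trans (hbM ω))
    have h3 : 0 ≤ max (b ω) 0 := le_max_right _ _
    have h4 : c * max (b ω) 0 ≤ 1 := (mul_le_mul_of_nonneg_left h2 hc.le).trans hc2
    have h5 : 0 ≤ c * max (b ω) 0 := mul_nonneg hc.le h3
    constructor <;> linarith
  have hms : MeasurableSet {ω | b ω ≤ 0} := measurableSet_le hb measurable_const
  have h1 : μ.real {ω | b ω ≤ 0} = ∫ ω, Set.indicator {ω | b ω ≤ 0} (fun _ => (1:ℝ)) ω ∂μ := by
    rw [integral_indicator hms]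
    simp
  rw [h1]
  refine tendsto_integral_of_dominated_convergence (fun _ => (1:ℝ)) (fun n => ?_)
    (integrable_const _) (fun n => ?_) ?_
  · exact (Measurable.pow_const (by fun_prop) n).aestronglyMeasurable
  · refine Eventually.of_forall fun ω => ?_
    obtain ⟨h1, h2⟩ := hrange ω
    rw [Real.norm_of_nonneg (pow_nonneg h1 n)]
    exact pow_le_one₀ h1 h2
  · refine Eventually.of_forall fun ω => ?_
    obtain ⟨h1, h2⟩ := hrange ω
    by_cases h : b ω ≤ 0
    · rw [Set.indicator_of_mem (show ω ∈ {ω | b ω ≤ 0} from h), max_eq_right h]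
      simp
    · rw [Set.indicator_of_notMem (show ω ∉ {ω | b ω ≤ 0} from h)]
      have h3 : 0 < max (b ω) 0 := lt_max_of_lt_left (not_le.1 h)
      have h4 : 0 < c * max (b ω) 0 := mul_pos hc h3
      exact tendsto_pow_atTop_nhds_zero_of_lt_one h1 (by linarith)

/-- **Subspaces on which the form of an element of the group algebra of `A` is not positive.** -/
theorem form_bound (hι : Function.Injective ι) (hU : Unif μ χ) (β : MonoidAlgebra ℂ A)
    (b : Ω → ℝ) (hb : ∀ ω, Ev (χ ω) β = b ω) (hβ : IsSelfAdjoint (Op ι β))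
    (K : Submodule ℂ (E2 G)) [K.HasOrthogonalProjection] (hK : RInv K)
    (hle : ∀ f ∈ K, (⟪f, Op ι β f⟫_ℂ).re ≤ 0) :
    kd K ≤ μ.real {ω | b ω ≤ 0} := by
  set B := Op ι β with hB
  set M : ℝ := ‖B‖ + nrm1 β + 1 with hM
  have hM0 : 0 < M := by
    have h1 := norm_nonneg B
    have h2 := nrm1_nonneg β
    linarith
  have hbm : Measurable b := by
    have h1 := Complex.measurable_re.comp (Ev_meas hU β)
    have h2 : (Complex.re ∘ fun ω => Ev (χ ω) β) = b := by
      funext ω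
      show (Ev (χ ω) β).re = b ω
      rw [hb, Complex.ofReal_re]
    rwa [h2] at h1
  have hbM : ∀ ω, |b ω| ≤ M := by
    intro ω
    have h1 := Ev_le (χ ω) β
    rw [hb, Complex.norm_real, Real.norm_eq_abs] at h1
    have h2 := norm_nonneg B
    linarith
  have hc0 : 0 < 1 / M := by positivity
  have hcM : 1 / M * M ≤ 1 := by
    rw [one_div, inv_mul_cancel₀ hM0.ne']
  obtain ⟨D, D', R, hcm, hDD, hRR, hD', hR, hBD, hnorm, hpow⟩ :=
    pack' B hβ M (1 / M) (by
      have h2 := nrm1_nonneg β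
      linarith) hc0.le hcM
  have step1 := cfc_part B D D' R (Com_Op ι β) 0 hcm hDD hRR hD' hR hBD K hK (by
    intro f hf
    rw [zero_mul]
    exact hle f hf)
  refine step1.trans (le_of_eq ?_)
  have hcc : ((1 / M : ℝ) : ℂ) ≠ 0 := by exact_mod_cast hc0.ne'
  have herg := erg (1 - ((1 / M : ℝ) : ℂ) • D) hnorm (LinearMap.ker (D : E2 G →ₗ[ℂ] E2 G)) (by
    intro f
    rw [LinearMap.mem_ker]
    have h1 : (1 - ((1 / M : ℝ) : ℂ) • D : E2 G →L[ℂ] E2 G) f = f - ((1 / M : ℝ) : ℂ) • D f := rfl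
    rw [h1, sub_eq_self, smul_eq_zero, or_iff_right hcc]
    rfl)
  have hmom : ∀ n : ℕ, trc ((1 - ((1 / M : ℝ) : ℂ) • D) ^ n)
      = ((∫ ω, (1 - 1 / M * max (b ω) 0) ^ n ∂μ : ℝ) : ℂ) := by
    intro n
    rw [hpow n]
    unfold trc
    have h1 := cfc_mom (μ := μ) (dl (1:G)) (dl 1) B hβ b (fun _ => 1) hbm M (by
        have h2 := nrm1_nonneg β
        linarith) hbM measurable_const 1 (fun _ => by simp) (by
        intro k
        have h2 := mom_Op ι hι hU β 1 b (fun _ => 1) hb (fun ω => by rw [map_one]; simp) k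
        rw [map_one] at h2
        exact h2) (fun x => (1 - 1 / M * max x 0) ^ n) (by fun_prop)
    rw [h1]
    simp only [mul_one]
  have herg2 : Tendsto (fun N : ℕ => (N : ℝ)⁻¹ * ∑ n ∈ Finset.range N,
      ∫ ω, (1 - 1 / M * max (b ω) 0) ^ n ∂μ) atTop
      (𝓝 (kd (LinearMap.ker (D : E2 G →ₗ[ℂ] E2 G)))) := by
    have h1 : ∀ N : ℕ, (N : ℂ)⁻¹ * ∑ n ∈ Finset.range N, trc ((1 - ((1 / M : ℝ) : ℂ) • D) ^ n)
        = (((N : ℝ)⁻¹ * ∑ n ∈ Finset.range N,
          ∫ ω, (1 - 1 / M * max (b ω) 0) ^ n ∂μ : ℝ) : ℂ) := by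
      intro N
      rw [Complex.ofReal_mul, Complex.ofReal_sum, Complex.ofReal_inv, Complex.ofReal_natCast]
      congr 1
      exact Finset.sum_congr rfl fun n _ => hmom n
    simp only [h1] at herg
    have h2 := (Complex.continuous_re.tendsto _).comp herg
    simpa [Function.comp_def] using h2
  have hlim := (lim_level (μ := μ) b hbm M (1 / M) hbM hc0 hcM).cesaro
  exact tendsto_nhds_unique herg2 hlim

/-- a group with a uniformly distributed random character is commutative -/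
lemma comm_of_unif (hU : Unif μ χ) (a b : A) : a * b = b * a := by
  by_contra h
  have h1 : a * b * a⁻¹ * b⁻¹ ≠ 1 := by
    intro h2
    apply h
    rw [mul_inv_eq_one] at h2
    rw [mul_inv_eq_iff_eq_mul] at h2
    exact h2
  have h2 := hU.mean _ h1
  have h3 : ∀ ω, (χ ω (a * b * a⁻¹ * b⁻¹) : ℂ) = 1 := by
    intro ω
    have h4 : χ ω (a * b * a⁻¹ * b⁻¹) = 1 := by
      simp only [map_mul, map_inv]
      rw [mul_comm (χ ω a), mul_assoc (χ ω b), mul_inv_cancel, mul_one, mul_inv_cancel]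
    rw [h4]
    rfl
  simp only [h3] at h2
  simp at h2

lemma comm_alg (hA : ∀ a b : A, a * b = b * a) (p q : MonoidAlgebra ℂ A) : p * q = q * p := by
  letI : CommGroup A := { (inferInstance : Group A) with mul_comm := hA }
  exact mul_comm p q

/-- weighted Cauchy-Schwarz -/
lemma wcs {I : Type*} (s : Finset I) (x c : I → ℝ) (hc : ∀ i ∈ s, 0 < c i)
    (hsum : ∑ i ∈ s, c i ≤ 1) : (∑ i ∈ s, x i) ^ 2 ≤ ∑ i ∈ s, (c i)⁻¹ * x i ^ 2 := by
  have h1 := Finset.sum_sq_le_sum_mul_sum_of_sq_le_mul s (r := x) (f := c)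
    (g := fun i => (c i)⁻¹ * x i ^ 2) (fun i hi => (hc i hi).le)
    (fun i hi => mul_nonneg (inv_nonneg.2 (hc i hi).le) (sq_nonneg _)) (fun i hi => by
      have := (hc i hi).ne'
      exact le_of_eq (by field_simp))
  refine h1.trans ?_
  have h2 : 0 ≤ ∑ i ∈ s, (c i)⁻¹ * x i ^ 2 :=
    Finset.sum_nonneg fun i hi => mul_nonneg (inv_nonneg.2 (hc i hi).le) (sq_nonneg _)
  nlinarith

lemma op_form (t : G) (p : MonoidAlgebra ℂ A) (f : E2 G) :
    ⟪f, Op ι (pst p * p) f⟫_ℂ = ((‖Sop ι t p f‖ ^ 2 : ℝ) : ℂ) := by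
  rw [← adj_Sop_mul ι t p]
  show ⟪f, ContinuousLinearMap.adjoint (Sop ι t p) (Sop ι t p f)⟫_ℂ = _
  rw [ContinuousLinearMap.adjoint_inner_right, inner_self_eq_norm_sq_to_K]
  push_cast
  rfl

lemma sa_sum {I : Type*} (s : Finset I) (r : I → ℝ) (P : I → MonoidAlgebra ℂ A) :
    IsSelfAdjoint (Op ι (∑ i ∈ s, (r i : ℂ) • (pst (P i) * P i))) := by
  rw [map_sum]
  refine isSelfAdjoint_sum _ fun i _ => ?_
  rw [map_smul, ← adj_Sop_mul ι (1:G) (P i)]
  exact IsSelfAdjoint.smul (by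
    show star ((r i : ℂ)) = _
    exact Complex.conj_ofReal _) (IsSelfAdjoint.star_mul_self (Sop ι (1:G) (P i)))

lemma form_sum {I : Type*} (s : Finset I) (r : I → ℝ) (t : I → G) (P : I → MonoidAlgebra ℂ A)
    (f : E2 G) : ⟪f, Op ι (∑ i ∈ s, (r i : ℂ) • (pst (P i) * P i)) f⟫_ℂ
      = ((∑ i ∈ s, r i * ‖Sop ι (t i) (P i) f‖ ^ 2 : ℝ) : ℂ) := by
  rw [map_sum, _root_.sum_apply, inner_sum, Complex.ofReal_sum]
  refine Finset.sum_congr rfl fun i _ => ?_
  rw [map_smul]
  show ⟪f, (r i : ℂ) • Op ι (pst (P i) * P i) f⟫_ℂ = _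
  rw [inner_smul_right, op_form ι (t i)]
  push_cast
  rfl

lemma ev_sum {I : Type*} (s : Finset I) (r : I → ℝ) (P : I → MonoidAlgebra ℂ A)
    (ψ : A →* Circle) : Ev ψ (∑ i ∈ s, (r i : ℂ) • (pst (P i) * P i))
      = ((∑ i ∈ s, r i * ‖Ev ψ (P i)‖ ^ 2 : ℝ) : ℂ) := by
  rw [map_sum, Complex.ofReal_sum]
  refine Finset.sum_congr rfl fun i _ => ?_
  rw [map_smul, Ev_sq, smul_eq_mul]
  push_cast
  rfl

set_option maxHeartbeats 4000000 in
/-- **The level set bound.** -/
theorem level_bound {I : Type*} [Fintype I] [DecidableEq I] (hι : Function.Injective ι)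
    (hU : Unif μ χ) (t : I → G) (P : I → MonoidAlgebra ℂ A) (j : I) (c : I → ℝ)
    (hc : ∀ i, i ≠ j → 0 < c i) (hsum : ∑ i ∈ Finset.univ.erase j, c i ≤ 1) :
    kd (LinearMap.ker ((∑ i, Sop ι (t i) (P i) : E2 G →L[ℂ] E2 G) : E2 G →ₗ[ℂ] E2 G))
      ≤ μ.real {ω | ‖Ev (χ ω) (P j)‖ ^ 2
        ≤ ∑ i ∈ Finset.univ.erase j, (c i)⁻¹ * ‖Ev (χ ω) (P i)‖ ^ 2} := by
  classical
  set r : I → ℝ := fun i => if i = j then 1 else -(c i)⁻¹ with hr
  have hexp : ∀ x : I → ℝ, ∑ i, r i * x i = x j - ∑ i ∈ Finset.univ.erase j, (c i)⁻¹ * x i := by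
    intro x
    rw [← Finset.add_sum_erase _ _ (Finset.mem_univ j)]
    simp only [hr, if_true, one_mul]
    rw [sub_eq_add_neg, ← Finset.sum_neg_distrib]
    congr 1
    refine Finset.sum_congr rfl fun i hi => ?_
    rw [if_neg (Finset.ne_of_mem_erase hi)]
    ring
  have hcom : Com (∑ i, Sop ι (t i) (P i) : E2 G →L[ℂ] E2 G) := by
    have : ∀ s : Finset I, Com (∑ i ∈ s, Sop ι (t i) (P i) : E2 G →L[ℂ] E2 G) := by
      intro s
      induction s using Finset.induction_on with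
      | empty => intro g f; simp
      | insert i s hi ih =>
        rw [Finset.sum_insert hi]
        exact (Com_Sop ι _ _).add ih
    exact this _
  have h := form_bound (μ := μ) ι hι hU (∑ i, (r i : ℂ) • (pst (P i) * P i))
    (fun ω => ∑ i, r i * ‖Ev (χ ω) (P i)‖ ^ 2) (fun ω => ev_sum _ _ _ _) (sa_sum ι _ _ _)
    (LinearMap.ker ((∑ i, Sop ι (t i) (P i) : E2 G →L[ℂ] E2 G) : E2 G →ₗ[ℂ] E2 G))
    (RInv_ker hcom) (by
      intro f hf
      rw [form_sum ι _ _ t, Complex.ofReal_re, hexp]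
      have h1 : ∑ i, Sop ι (t i) (P i) f = 0 := by
        have h2 : (∑ i, Sop ι (t i) (P i) : E2 G →L[ℂ] E2 G) f = 0 := hf
        rwa [_root_.sum_apply] at h2
      rw [← Finset.add_sum_erase _ _ (Finset.mem_univ j)] at h1
      have h3 : ‖Sop ι (t j) (P j) f‖ ≤ ∑ i ∈ Finset.univ.erase j, ‖Sop ι (t i) (P i) f‖ := by
        rw [eq_neg_of_add_eq_zero_left h1, norm_neg]
        exact norm_sum_le _ _
      have h4 := pow_le_pow_left₀ (norm_nonneg _) h3 2
      have h5 := wcs (Finset.univ.erase j) (fun i => ‖Sop ι (t i) (P i) f‖) c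
        (fun i hi => hc i (Finset.ne_of_mem_erase hi)) hsum
      linarith)
  refine h.trans (le_of_eq ?_)
  congr 1
  ext ω
  simp only [Set.mem_ofPred_eq]
  rw [hexp (fun i => ‖Ev (χ ω) (P i)‖ ^ 2), sub_nonpos]

set_option maxHeartbeats 4000000 in
/-- **The integral bound.** -/
theorem integral_bound {I : Type*} [Fintype I] [DecidableEq I] (hι : Function.Injective ι)
    (hU : Unif μ χ) (t : I → G) (ht : ∀ i j, i ≠ j → (t i)⁻¹ * t j ∉ Set.range ι)
    (P : I → MonoidAlgebra ℂ A) (c : I → ℝ)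
    (hc : ∀ i, 0 < c i) (hsum : ∑ i, c i ≤ 1) :
    kd (LinearMap.ker ((∑ i, Sop ι (t i) (P i) : E2 G →L[ℂ] E2 G) : E2 G →ₗ[ℂ] E2 G))
      ≤ 1 - ∫ ω, (∑ i, ‖Ev (χ ω) (P i)‖ ^ 2) / (∑ i, (c i)⁻¹ * ‖Ev (χ ω) (P i)‖ ^ 2) ∂μ := by
  classical
  set S : E2 G →L[ℂ] E2 G := ∑ i, Sop ι (t i) (P i) with hS
  have hScom : Com S := by
    have : ∀ s : Finset I, Com (∑ i ∈ s, Sop ι (t i) (P i) : E2 G →L[ℂ] E2 G) := by
      intro s
      induction s using Finset.induction_on with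
      | empty => intro g f; simp
      | insert i s hi ih =>
        rw [Finset.sum_insert hi]
        exact (Com_Sop ι _ _).add ih
    exact this _
  set β : MonoidAlgebra ℂ A := ∑ i, (((c i)⁻¹ : ℝ) : ℂ) • (pst (P i) * P i) with hβ
  set σ : MonoidAlgebra ℂ A := ∑ i, ((1 : ℝ) : ℂ) • (pst (P i) * P i) with hσ
  set b : Ω → ℝ := fun ω => ∑ i, (c i)⁻¹ * ‖Ev (χ ω) (P i)‖ ^ 2 with hb
  set s : Ω → ℝ := fun ω => ∑ i, ‖Ev (χ ω) (P i)‖ ^ 2 with hs
  have hbE : ∀ ω, Ev (χ ω) β = b ω := fun ω => ev_sum _ _ _ _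
  have hsE : ∀ ω, Ev (χ ω) σ = s ω := by
    intro ω
    rw [hσ, ev_sum]
    simp only [one_mul, hs]
  set B := Op ι β with hB
  have hBsa : IsSelfAdjoint B := sa_sum ι _ _ _
  have hBf : ∀ f, ⟪f, B f⟫_ℂ = ((∑ i, (c i)⁻¹ * ‖Sop ι (t i) (P i) f‖ ^ 2 : ℝ) : ℂ) :=
    fun f => form_sum ι _ _ t _ f
  have hSf : ∀ f, ⟪f, Op ι σ f⟫_ℂ = ((∑ i, ‖Sop ι (t i) (P i) f‖ ^ 2 : ℝ) : ℂ) := by
    intro f
    rw [hσ, form_sum ι _ _ t _ f]
    simp only [one_mul]
  have hB0 : 0 ≤ B := by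
    rw [hB, hβ, map_sum]
    refine Finset.sum_nonneg fun i _ => ?_
    rw [map_smul, ← adj_Sop_mul ι (1:G) (P i)]
    have h1 := star_mul_self_nonneg ((((Real.sqrt (c i)⁻¹ : ℝ)) : ℂ) • Sop ι (1:G) (P i))
    have h2 : star ((((Real.sqrt (c i)⁻¹ : ℝ)) : ℂ) • Sop ι (1:G) (P i))
        * ((((Real.sqrt (c i)⁻¹ : ℝ)) : ℂ) • Sop ι (1:G) (P i))
        = ((((c i)⁻¹ : ℝ) : ℂ) • (ContinuousLinearMap.adjoint (Sop ι (1:G) (P i))
        * Sop ι (1:G) (P i))) := by
      rw [star_smul, smul_mul_smul_comm]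
      congr 1
      rw [Complex.star_def, Complex.conj_ofReal, ← Complex.ofReal_mul,
        Real.mul_self_sqrt (inv_nonneg.2 (hc i).le)]
    rw [h2] at h1
    exact h1
  set d : ℝ := kd (LinearMap.ker (S : E2 G →ₗ[ℂ] E2 G)) with hd
  have hbm : Measurable b := by
    have h1 := Complex.measurable_re.comp (Ev_meas hU β)
    have h2 : (Complex.re ∘ fun ω => Ev (χ ω) β) = b := by
      funext ω
      show (Ev (χ ω) β).re = b ω
      rw [hbE, Complex.ofReal_re]
    rwa [h2] at h1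
  have hsm : Measurable s := by
    have h1 := Complex.measurable_re.comp (Ev_meas hU σ)
    have h2 : (Complex.re ∘ fun ω => Ev (χ ω) σ) = s := by
      funext ω
      show (Ev (χ ω) σ).re = s ω
      rw [hsE, Complex.ofReal_re]
    rwa [h2] at h1
  have hbM : ∀ ω, |b ω| ≤ nrm1 β := by
    intro ω
    have h1 := Ev_le (χ ω) β
    rwa [hbE, Complex.norm_real, Real.norm_eq_abs] at h1
  have hsN : ∀ ω, |s ω| ≤ nrm1 σ := by
    intro ω
    have h1 := Ev_le (χ ω) σ
    rwa [hsE, Complex.norm_real, Real.norm_eq_abs] at h1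
  have hb0 : ∀ ω, 0 ≤ b ω := fun ω =>
    Finset.sum_nonneg fun i _ => mul_nonneg (inv_nonneg.2 (hc i).le) (sq_nonneg _)
  have hs0 : ∀ ω, 0 ≤ s ω := fun ω => Finset.sum_nonneg fun i _ => sq_nonneg _
  have hsb : ∀ ω, s ω ≤ b ω := by
    intro ω
    refine Finset.sum_le_sum fun i _ => ?_
    have h1 : c i ≤ 1 :=
      (Finset.single_le_sum (fun k _ => (hc k).le) (Finset.mem_univ i)).trans hsum
    have h2 : 1 ≤ (c i)⁻¹ := (one_le_inv₀ (hc i)).2 h1
    have h3 : 0 ≤ ‖Ev (χ ω) (P i)‖ ^ 2 := sq_nonneg _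
    nlinarith
  -- the bound with `ε`
  have key : ∀ ε : ℝ, 0 < ε → ∫ ω, (b ω + ε)⁻¹ * s ω ∂μ ≤ 1 - d := by
    intro ε hε
    obtain ⟨T, hT, hTc, hTB, hTB', hTT⟩ := inv_sqrt' B hB0 ε hε
    have hTadj : ContinuousLinearMap.adjoint T = T := hT
    have hTcom : Com T := by
      intro g f
      have h2 := hTc (Rt g).toContinuousLinearMap (by ext1 x; exact Com_Op ι β g x)
      exact congrArg (fun T : E2 G →L[ℂ] E2 G => T f) h2
    have hTQ : T * Pr (Set.range ι) = Pr (Set.range ι) * T := hTc _ (Op_Pr ι β)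
    have hTσ : T * Op ι σ = Op ι σ * T := by
      refine hTc _ ?_
      rw [hB, ← map_mul, ← map_mul, comm_alg (comm_of_unif hU) β σ]
    have hform : ∀ f, ∑ i, (c i)⁻¹ * ‖Sop ι (t i) (P i) (T f)‖ ^ 2 = ‖f‖ ^ 2 - ε * ‖T f‖ ^ 2 := by
      intro f
      have h1 := hBf (T f)
      have h2 : ⟪T f, B (T f)⟫_ℂ = ⟪f, (T * T * B) f⟫_ℂ := by
        rw [← ContinuousLinearMap.adjoint_inner_right, hTadj]
        have h3 : T * (B * T) = T * T * B := by rw [← hTB', mul_assoc]
        show ⟪f, (T * (B * T)) f⟫_ℂ = _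
        rw [h3]
      have h3 : (T * T * B) f = f - (ε : ℂ) • T (T f) := by
        have h4 : T * T * B = 1 - (ε : ℂ) • (T * T) := by rw [← hTB]; abel
        rw [h4]
        rfl
      have h5 : ⟪f, T (T f)⟫_ℂ = ((‖T f‖ ^ 2 : ℝ) : ℂ) := by
        rw [← hTadj, ContinuousLinearMap.adjoint_inner_right, hTadj, inner_self_eq_norm_sq_to_K]
        norm_cast
      rw [h2, h3, inner_sub_right, inner_smul_right, h5, inner_self_eq_norm_sq_to_K] at h1
      have h6 : ((‖f‖ ^ 2 - ε * ‖T f‖ ^ 2 : ℝ) : ℂ)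
          = ((∑ i, (c i)⁻¹ * ‖Sop ι (t i) (P i) (T f)‖ ^ 2 : ℝ) : ℂ) := by
        rw [← h1]
        push_cast
        rfl
      exact_mod_cast h6.symm
    set β' : E2 G →L[ℂ] E2 G := S * T with hβ'
    have hβcom : Com β' := hScom.mul hTcom
    have hβn : ‖β'‖ ≤ 1 := by
      refine ContinuousLinearMap.opNorm_le_bound _ zero_le_one fun f => ?_
      rw [one_mul]
      apply le_of_sq_le_sq _ (norm_nonneg _)
      have h1 : β' f = ∑ i, Sop ι (t i) (P i) (T f) := by
        show S (T f) = _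
        rw [hS, _root_.sum_apply]
      rw [h1]
      have h2 := pow_le_pow_left₀ (norm_nonneg _)
        (norm_sum_le Finset.univ (fun i => Sop ι (t i) (P i) (T f))) 2
      have h3 := wcs Finset.univ (fun i => ‖Sop ι (t i) (P i) (T f)‖) c (fun i _ => hc i) hsum
      rw [hform] at h3
      have : 0 ≤ ε * ‖T f‖ ^ 2 := by positivity
      linarith
    -- the trace from the right
    have htr1 : trc (ContinuousLinearMap.adjoint β' * β')
        = ((∫ ω, (b ω + ε)⁻¹ * s ω ∂μ : ℝ) : ℂ) := by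
      have h1 : trc (ContinuousLinearMap.adjoint β' * β') = ((‖β' (dl 1)‖ ^ 2 : ℝ) : ℂ) := by
        unfold trc
        show ⟪dl (1:G), ContinuousLinearMap.adjoint β' (β' (dl 1))⟫_ℂ = _
        rw [ContinuousLinearMap.adjoint_inner_right, inner_self_eq_norm_sq_to_K]
        norm_cast
      have h2 : Pr (Set.range ι) (T (dl 1)) = T (dl (1:G)) := by
        have h3 : (T * Pr (Set.range ι)) (dl (1:G)) = (Pr (Set.range ι) * T) (dl 1) := by rw [hTQ]
        have h4 : T (Pr (Set.range ι) (dl (1:G))) = Pr (Set.range ι) (T (dl 1)) := h3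
        rw [← h4, Pr_dl_one]
      have h3 : ‖β' (dl 1)‖ ^ 2 = ∑ i, ‖Sop ι (t i) (P i) (T (dl 1))‖ ^ 2 := by
        show ‖S (T (dl 1))‖ ^ 2 = _
        exact orth_Sop ι Finset.univ t P (fun i _ j _ hij => ht i j hij) _ h2
      rw [h1, h3, ← hSf]
      have h4 : ⟪T (dl (1:G)), Op ι σ (T (dl 1))⟫_ℂ = ⟪dl (1:G), (T * T) (Op ι σ (dl 1))⟫_ℂ := by
        have h5 : Op ι σ (T (dl (1:G))) = T (Op ι σ (dl 1)) :=
          (congrArg (fun T : E2 G →L[ℂ] E2 G => T (dl 1)) hTσ).symm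
        rw [h5]
        conv_lhs => rw [← hTadj, ContinuousLinearMap.adjoint_inner_left, hTadj]
        rfl
      rw [h4, hTT]
      rw [cfc_mom (μ := μ) (dl (1:G)) (Op ι σ (dl 1)) B hBsa b s hbm (‖B‖ + nrm1 β) (by
          have := nrm1_nonneg β
          linarith) (fun ω => (hbM ω).trans (by
            have := norm_nonneg B
            linarith)) hsm (nrm1 σ) hsN (fun k => mom_Op ι hι hU β σ b s hbE hsE k)
          (fun x => (max x 0 + ε)⁻¹) (by
            refine Continuous.inv₀ (by fun_prop) fun x => ?_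
            have := le_max_right x 0
            linarith)]
      congr 1
      refine integral_congr_ae (Eventually.of_forall fun ω => ?_)
      simp only
      rw [max_eq_left (hb0 ω)]
    -- the trace from the left
    have hadjβ : ContinuousLinearMap.adjoint β' = T * ContinuousLinearMap.adjoint S := by
      rw [hβ', ContinuousLinearMap.mul_def, ContinuousLinearMap.adjoint_comp, hTadj]
      rfl
    set V := LinearMap.ker ((ContinuousLinearMap.adjoint S : E2 G →L[ℂ] E2 G) : E2 G →ₗ[ℂ] E2 G)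
      with hV
    have hkd : kd V = d := (kd_adjoint S hScom).symm
    have htr2 : trc (β' * ContinuousLinearMap.adjoint β') =
        ((‖ContinuousLinearMap.adjoint β' (dl 1)‖ ^ 2 : ℝ) : ℂ) := by
      unfold trc
      show ⟪dl (1:G), β' (ContinuousLinearMap.adjoint β' (dl 1))⟫_ℂ = _
      rw [← ContinuousLinearMap.adjoint_inner_left, inner_self_eq_norm_sq_to_K]
      norm_cast
    have hproj : ContinuousLinearMap.adjoint β' (dl 1)
        = ContinuousLinearMap.adjoint β' (Vᗮ.starProjection (dl 1)) := by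
      have h1 : V.starProjection (dl (1:G)) + Vᗮ.starProjection (dl 1) = dl 1 :=
        Submodule.starProjection_add_starProjection_orthogonal _
      have h2 : ContinuousLinearMap.adjoint β' (V.starProjection (dl (1:G))) = 0 := by
        rw [hadjβ]
        show T (ContinuousLinearMap.adjoint S (V.starProjection (dl (1:G)))) = 0
        have h3 : V.starProjection (dl (1:G)) ∈ V := Submodule.starProjection_apply_mem _ _
        have h4 : ContinuousLinearMap.adjoint S (V.starProjection (dl (1:G))) = 0 := h3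
        rw [h4, map_zero]
      conv_lhs => rw [← h1, map_add, h2, zero_add]
    have h8 : ‖ContinuousLinearMap.adjoint β' (dl 1)‖ ^ 2 ≤ 1 - d := by
      rw [hproj]
      have h1 : ‖ContinuousLinearMap.adjoint β'‖ ≤ 1 := by
        rw [LinearIsometryEquiv.norm_map]
        exact hβn
      have h2 := (ContinuousLinearMap.adjoint β').le_opNorm (Vᗮ.starProjection (dl 1))
      have h3 := h2.trans (mul_le_mul_of_nonneg_right h1 (norm_nonneg _))
      rw [one_mul] at h3
      have h4 := pow_le_pow_left₀ (norm_nonneg _) h3 2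
      have h5 : ‖Vᗮ.starProjection (dl (1:G))‖ ^ 2 = 1 - d := by
        have h6 := kd_orth V
        rw [hkd] at h6
        exact h6
      rw [h5] at h4
      exact h4
    have h9 := trc_comm hβcom.adjoint hβcom
    rw [htr1, htr2] at h9
    have h10 : ∫ ω, (b ω + ε)⁻¹ * s ω ∂μ = ‖ContinuousLinearMap.adjoint β' (dl 1)‖ ^ 2 := by
      exact_mod_cast h9
    rw [h10]
    exact h8
  -- the limit
  have hlim : Tendsto (fun n : ℕ => ∫ ω, (b ω + 1 / ((n : ℝ) + 1))⁻¹ * s ω ∂μ) atTop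
      (𝓝 (∫ ω, s ω / b ω ∂μ)) := by
    refine tendsto_integral_of_dominated_convergence (fun _ => (1:ℝ)) (fun n => ?_)
      (integrable_const _) (fun n => ?_) ?_
    · exact (((hbm.add_const _).inv).mul hsm).aestronglyMeasurable
    · refine Eventually.of_forall fun ω => ?_
      have h1 : (0:ℝ) < 1 / ((n : ℝ) + 1) := by positivity
      have h2 := hb0 ω
      have h3 := hsb ω
      have h4 : 0 < b ω + 1 / ((n : ℝ) + 1) := by linarith
      rw [Real.norm_of_nonneg (mul_nonneg (inv_nonneg.2 h4.le) (hs0 ω)), inv_mul_le_iff₀ h4]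
      linarith
    · refine Eventually.of_forall fun ω => ?_
      by_cases h : b ω = 0
      · have h1 : s ω = 0 := le_antisymm (h ▸ hsb ω) (hs0 ω)
        simp [h1]
      · have h1 : Tendsto (fun n : ℕ => b ω + 1 / ((n : ℝ) + 1)) atTop (𝓝 (b ω + 0)) :=
          tendsto_const_nhds.add tendsto_one_div_add_atTop_nhds_zero_nat
        rw [add_zero] at h1
        have h2 := (h1.inv₀ h).mul_const (s ω)
        rw [div_eq_inv_mul]
        exact h2
  have := le_of_tendsto hlim (Eventually.of_forall fun n => key _ (by positivity))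
  show d ≤ 1 - ∫ ω, s ω / b ω ∂μ
  linarith

end Pool.Agent.D0H79.LV
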