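import Mathlib

/-!
Moments and the continuous functional calculus, over a probability space.
-/

set_option autoImplicit false
set_option linter.unusedSectionVars false

open scoped InnerProductSpace
open Filter Topology MeasureTheory

noncomputable section

namespace Pool.Agent.D0H79.LV

variable {H : Type*} [NormedAddCommGroup H] [InnerProductSpace ℂ H] [CompleteSpace H]
variable {Ω : Type*} [MeasurableSpace Ω] {μ : Measure Ω} [IsProbabilityMeasure μ]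

/-- bounded measurable functions are integrable -/
lemma bint {f : Ω → ℝ} (hf : Measurable f) {C : ℝ} (h : ∀ ω, |f ω| ≤ C) : Integrable f μ :=
  Integrable.of_bound hf.aestronglyMeasurable C (Eventually.of_forall fun ω => h ω)

/-- a continuous function is bounded on an interval -/
lemma cbd (ψ : ℝ → ℝ) (hψ : Continuous ψ) (M : ℝ) :
    ∃ C, ∀ x : ℝ, |x| ≤ M → |ψ x| ≤ C := by
  obtain ⟨C, hC⟩ := (isCompact_Icc (a := -M) (b := M)).exists_bound_of_continuousOn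
    hψ.continuousOn
  exact ⟨C, fun x hx => hC x (by rw [Set.mem_Icc, ← abs_le]; exact hx)⟩

lemma cint (ψ : ℝ → ℝ) (hψ : Continuous ψ) {b s : Ω → ℝ} (hb : Measurable b) {M : ℝ}
    (hbM : ∀ ω, |b ω| ≤ M) (hs : Measurable s) {N : ℝ} (hsN : ∀ ω, |s ω| ≤ N) :
    Integrable (fun ω => ψ (b ω) * s ω) μ := by
  obtain ⟨C, hC⟩ := cbd ψ hψ M
  refine bint ((hψ.measurable.comp hb).mul hs) (C := |C| * |N|) fun ω => ?_
  rw [abs_mul]
  exact mul_le_mul ((hC _ (hbM ω)).trans (le_abs_self C)) ((hsN ω).trans (le_abs_self N))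
    (abs_nonneg _) (abs_nonneg _)

lemma poly_mom (v w : H) (B : H →L[ℂ] H) (b s : Ω → ℝ) (hb : Measurable b) (M : ℝ)
    (hbM : ∀ ω, |b ω| ≤ M) (hs : Measurable s) (N : ℝ) (hsN : ∀ ω, |s ω| ≤ N)
    (hmom : ∀ k : ℕ, ⟪v, (B ^ k) w⟫_ℂ = ((∫ ω, b ω ^ k * s ω ∂μ : ℝ) : ℂ)) (p : Polynomial ℝ) :
    ⟪v, (Polynomial.aeval B p) w⟫_ℂ = ((∫ ω, p.eval (b ω) * s ω ∂μ : ℝ) : ℂ) := by
  induction p using Polynomial.induction_on' with
  | add p q hp hq =>
    rw [map_add, ContinuousLinearMap.add_apply, inner_add_right, hp, hq]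
    have : ∫ ω, (p + q).eval (b ω) * s ω ∂μ
        = ∫ ω, p.eval (b ω) * s ω ∂μ + ∫ ω, q.eval (b ω) * s ω ∂μ := by
      rw [← integral_add (cint _ p.continuous hb hbM hs hsN)
        (cint _ q.continuous hb hbM hs hsN)]
      refine integral_congr_ae (Eventually.of_forall fun ω => ?_)
      simp only [Polynomial.eval_add]
      ring
    rw [this]
    push_cast
    ring
  | monomial n a =>
    rw [Polynomial.aeval_monomial]
    have h1 : (algebraMap ℝ (H →L[ℂ] H) a * B ^ n) w = (a : ℂ) • (B ^ n) w := rfl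
    rw [h1, inner_smul_right, hmom]
    have : ∫ ω, (Polynomial.monomial n a).eval (b ω) * s ω ∂μ
        = a * ∫ ω, b ω ^ n * s ω ∂μ := by
      rw [← integral_const_mul]
      refine integral_congr_ae (Eventually.of_forall fun ω => ?_)
      simp only [Polynomial.eval_monomial]
      ring
    rw [this]
    push_cast
    ring

/-- **Moments determine the functional calculus.** -/
lemma cfc_mom (v w : H) (B : H →L[ℂ] H) (hB : IsSelfAdjoint B) (b s : Ω → ℝ) (hb : Measurable b)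
    (M : ℝ) (hM : ‖B‖ ≤ M) (hbM : ∀ ω, |b ω| ≤ M) (hs : Measurable s) (N : ℝ)
    (hsN : ∀ ω, |s ω| ≤ N)
    (hmom : ∀ k : ℕ, ⟪v, (B ^ k) w⟫_ℂ = ((∫ ω, b ω ^ k * s ω ∂μ : ℝ) : ℂ)) (ψ : ℝ → ℝ)
    (hψ : Continuous ψ) :
    ⟪v, (cfc ψ B) w⟫_ℂ = ((∫ ω, ψ (b ω) * s ω ∂μ : ℝ) : ℂ) := by
  have key : ∀ ε : ℝ, 0 < ε →
      ‖⟪v, (cfc ψ B) w⟫_ℂ - ((∫ ω, ψ (b ω) * s ω ∂μ : ℝ) : ℂ)‖
        ≤ ε * (‖v‖ * ‖w‖ + |N| + 1) := by
    intro ε hε
    obtain ⟨p, hp⟩ := exists_polynomial_near_of_continuousOn (-M) M ψ hψ.continuousOn ε hε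
    have hspec : ∀ x ∈ spectrum ℝ B, x ∈ Set.Icc (-M) M := by
      intro x hx
      have h1 : ‖x‖ ≤ ‖B‖ := by
        have h2 := norm_apply_le_norm_cfc (fun x : ℝ => x) B hx (by fun_prop) hB
        rwa [cfc_id' ℝ B hB] at h2
      rw [Set.mem_Icc, ← abs_le]
      exact h1.trans hM
    have h3 : cfc p.eval B = Polynomial.aeval B p := cfc_polynomial p B hB
    have h4 : ‖cfc p.eval B - cfc ψ B‖ ≤ ε := by
      rw [← cfc_sub _ _ B (p.continuous.continuousOn) hψ.continuousOn]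
      refine norm_cfc_le hε.le fun x hx => ?_
      exact (hp x (hspec x hx)).le
    have h5 : ⟪v, (cfc p.eval B) w⟫_ℂ = ((∫ ω, p.eval (b ω) * s ω ∂μ : ℝ) : ℂ) := by
      rw [h3]
      exact poly_mom v w B b s hb M hbM hs N hsN hmom p
    have h6 : ‖⟪v, (cfc ψ B) w⟫_ℂ - ⟪v, (cfc p.eval B) w⟫_ℂ‖ ≤ ε * (‖v‖ * ‖w‖) := by
      rw [← inner_sub_right, ← ContinuousLinearMap.sub_apply]
      refine (norm_inner_le_norm _ _).trans ?_
      have h7 := (cfc ψ B - cfc p.eval B).le_opNorm w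
      rw [norm_sub_rev] at h4
      calc ‖v‖ * ‖(cfc ψ B - cfc p.eval B) w‖ ≤ ‖v‖ * (ε * ‖w‖) := by
            gcongr
            exact h7.trans (by gcongr)
        _ = ε * (‖v‖ * ‖w‖) := by ring
    have h8 : ‖((∫ ω, p.eval (b ω) * s ω ∂μ : ℝ) : ℂ) - ((∫ ω, ψ (b ω) * s ω ∂μ : ℝ) : ℂ)‖
        ≤ ε * |N| := by
      rw [← Complex.ofReal_sub, Complex.norm_real, ← integral_sub
        (cint _ p.continuous hb hbM hs hsN) (cint _ hψ hb hbM hs hsN)]
      have h9 : ∀ᵐ ω ∂μ, ‖p.eval (b ω) * s ω - ψ (b ω) * s ω‖ ≤ ε * |N| := by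
        refine Eventually.of_forall fun ω => ?_
        rw [← sub_mul, norm_mul]
        exact mul_le_mul (hp _ (by rw [Set.mem_Icc, ← abs_le]; exact hbM ω)).le
          ((hsN ω).trans (le_abs_self N)) (norm_nonneg _) hε.le
      have h10 := norm_integral_le_of_norm_le_const h9
      simpa using h10
    have h9 : ⟪v, (cfc ψ B) w⟫_ℂ - ((∫ ω, ψ (b ω) * s ω ∂μ : ℝ) : ℂ)
        = (⟪v, (cfc ψ B) w⟫_ℂ - ⟪v, (cfc p.eval B) w⟫_ℂ)
          + (((∫ ω, p.eval (b ω) * s ω ∂μ : ℝ) : ℂ) - ((∫ ω, ψ (b ω) * s ω ∂μ : ℝ) : ℂ)) := by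
      rw [h5]; ring
    rw [h9]
    refine (norm_add_le _ _).trans ?_
    nlinarith
  rw [← sub_eq_zero, ← norm_le_zero_iff]
  refine le_of_forall_pos_le_add fun δ hδ => ?_
  have hp : 0 < ‖v‖ * ‖w‖ + |N| + 1 := by positivity
  have := key (δ / (‖v‖ * ‖w‖ + |N| + 1)) (by positivity)
  rw [div_mul_cancel₀ _ hp.ne'] at this
  linarith

end Pool.Agent.D0H79.LV
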