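import Pool.Agent.D0H79.KC.Cos
import Pool.Agent.D0H79.LV.Mea

/-!
Operators of an abelian subgroup and its uniformly distributed random characters.
-/

set_option autoImplicit false
set_option linter.unusedSectionVars false

open scoped InnerProductSpace
open Filter Topology MeasureTheory

noncomputable section

namespace Pool.Agent.D0H79.LV

open H61R3NG Pool.Agent.D0H79.KC

variable {G : Type*} [Group G] {A : Type*} [Group A] (ι : A →* G)

/-- the operator of an element of the group algebra of `A` -/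
def Op : MonoidAlgebra ℂ A →ₐ[ℂ] (E2 G →L[ℂ] E2 G) :=
  MonoidAlgebra.lift ℂ (E2 G →L[ℂ] E2 G) A ((Lhom G).comp ι)

/-- the value at a character -/
def Ev (χ : A →* Circle) : MonoidAlgebra ℂ A →ₐ[ℂ] ℂ :=
  MonoidAlgebra.lift ℂ ℂ A (Circle.coeHom.comp χ)

lemma Op_single (a : A) (c : ℂ) : Op ι (MonoidAlgebra.single a c) = c • Lhom G (ι a) := by
  unfold Op
  rw [MonoidAlgebra.lift_single]
  rfl

lemma Ev_single (χ : A →* Circle) (a : A) (c : ℂ) :
    Ev χ (MonoidAlgebra.single a c) = c * (χ a : ℂ) := by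
  unfold Ev
  rw [MonoidAlgebra.lift_single]
  rfl

/-- the adjoint element -/
def pst (p : MonoidAlgebra ℂ A) : MonoidAlgebra ℂ A :=
  p.coeff.sum fun a c => MonoidAlgebra.single a⁻¹ ((starRingEnd ℂ) c)

lemma pst_zero : pst (0 : MonoidAlgebra ℂ A) = 0 := by
  unfold pst
  exact Finsupp.sum_zero_index

lemma pst_add (p q : MonoidAlgebra ℂ A) : pst (p + q) = pst p + pst q := by
  classical
  unfold pst
  rw [MonoidAlgebra.coeff_add]
  refine Finsupp.sum_add_index' (fun a => ?_) (fun a b c => ?_)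
  · simp
  · rw [map_add, MonoidAlgebra.single_add]

lemma pst_single (a : A) (c : ℂ) :
    pst (MonoidAlgebra.single a c) = MonoidAlgebra.single a⁻¹ ((starRingEnd ℂ) c) := by
  unfold pst
  rw [MonoidAlgebra.coeff_single, Finsupp.sum_single_index]
  simp

lemma adj_Op (p : MonoidAlgebra ℂ A) :
    ContinuousLinearMap.adjoint (Op ι p) = Op ι (pst p) := by
  induction p using MonoidAlgebra.induction_linear with
  | zero => rw [pst_zero, map_zero, map_zero]
  | add p q hp hq => rw [pst_add, map_add, map_add, map_add, hp, hq]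
  | single a c =>
    rw [pst_single, Op_single, Op_single, ContinuousLinearMap.adjoint.map_smulₛₗ, adj_L, map_inv ι]

lemma Ev_pst (χ : A →* Circle) (p : MonoidAlgebra ℂ A) :
    Ev χ (pst p) = (starRingEnd ℂ) (Ev χ p) := by
  induction p using MonoidAlgebra.induction_linear with
  | zero => rw [pst_zero, map_zero, map_zero]
  | add p q hp hq => rw [pst_add, map_add, map_add, map_add, hp, hq]
  | single a c =>
    rw [pst_single, Ev_single, Ev_single, map_mul, map_inv, Circle.coe_inv_eq_conj]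

lemma Ev_sq (χ : A →* Circle) (p : MonoidAlgebra ℂ A) :
    Ev χ (pst p * p) = ((‖Ev χ p‖ ^ 2 : ℝ) : ℂ) := by
  rw [map_mul, Ev_pst, Complex.conj_mul']
  push_cast
  rfl

lemma Com_Op (p : MonoidAlgebra ℂ A) : Com (Op ι p) := by
  induction p using MonoidAlgebra.induction_linear with
  | zero => rw [map_zero]; intro g f; simp
  | add p q hp hq => rw [map_add]; exact hp.add hq
  | single a c => rw [Op_single]; exact (Com_L _).smul c

lemma trc_Op (hι : Function.Injective ι) (p : MonoidAlgebra ℂ A) :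
    trc (Op ι p) = p.coeff 1 := by
  classical
  induction p using MonoidAlgebra.induction_linear with
  | zero => rw [map_zero]; unfold trc; simp
  | add p q hp hq => rw [map_add, trc_add, hp, hq]; rfl
  | single a c =>
    rw [Op_single, trc_smul, MonoidAlgebra.coeff_single, Finsupp.single_apply]
    have h1 : trc (Lhom G (ι a)) = if a = 1 then 1 else 0 := by
      unfold trc
      show ⟪dl (1:G), Lt (ι a) (dl 1)⟫_ℂ = _
      rw [Lt_dl, mul_one, inner_dl_left, dl_apply]
      have h2 : (1 : G) = ι a ↔ a = 1 := by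
        rw [eq_comm, map_eq_one_iff ι hι]
      simp only [h2]
    rw [h1]
    split_ifs <;> simp

variable {Ω : Type*} [MeasurableSpace Ω]

/-- a uniformly distributed random character -/
structure Unif (μ : Measure Ω) (χ : Ω → A →* Circle) : Prop where
  meas : ∀ a, Measurable fun ω => (χ ω a : ℂ)
  mean : ∀ a, a ≠ 1 → ∫ ω, (χ ω a : ℂ) ∂μ = 0

variable {μ : Measure Ω} {χ : Ω → A →* Circle}

/-- the sum of the absolute values of the coefficients -/
def nrm1 (p : MonoidAlgebra ℂ A) : ℝ := ∑ a ∈ p.coeff.support, ‖p.coeff a‖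

lemma Ev_eq (χ : A →* Circle) (p : MonoidAlgebra ℂ A) :
    Ev χ p = ∑ a ∈ p.coeff.support, p.coeff a * (χ a : ℂ) := by
  unfold Ev
  rw [MonoidAlgebra.lift_apply]
  rfl

lemma Ev_le (χ : A →* Circle) (p : MonoidAlgebra ℂ A) : ‖Ev χ p‖ ≤ nrm1 p := by
  rw [Ev_eq]
  refine (norm_sum_le _ _).trans (Finset.sum_le_sum fun a _ => ?_)
  rw [norm_mul, Circle.norm_coe, mul_one]

lemma nrm1_nonneg (p : MonoidAlgebra ℂ A) : 0 ≤ nrm1 p :=
  Finset.sum_nonneg fun _ _ => norm_nonneg _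

lemma Ev_meas (hU : Unif μ χ) (p : MonoidAlgebra ℂ A) : Measurable fun ω => Ev (χ ω) p := by
  simp only [Ev_eq]
  exact Finset.measurable_sum _ fun a _ => (hU.meas a).const_mul _

lemma int_Ev [IsProbabilityMeasure μ] (hU : Unif μ χ) (p : MonoidAlgebra ℂ A) :
    ∫ ω, Ev (χ ω) p ∂μ = p.coeff 1 := by
  classical
  have hint : ∀ a : A, Integrable (fun ω => (χ ω a : ℂ)) μ := fun a =>
    Integrable.of_bound (hU.meas a).aestronglyMeasurable 1
      (Eventually.of_forall fun ω => (Circle.norm_coe _).le)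
  simp only [Ev_eq]
  rw [integral_finset_sum _ fun a _ => (hint a).const_mul _]
  have h1 : ∀ a : A, ∫ ω, p.coeff a * (χ ω a : ℂ) ∂μ = if a = 1 then p.coeff 1 else 0 := by
    intro a
    rw [integral_const_mul]
    split_ifs with h
    · subst h
      simp
    · rw [hU.mean a h, mul_zero]
  simp only [h1]
  rw [Finset.sum_ite_eq']
  split_ifs with h
  · rfl
  · rw [Finsupp.notMem_support_iff] at h
    exact h.symm

lemma trc_eq_int [IsProbabilityMeasure μ] (hι : Function.Injective ι) (hU : Unif μ χ)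
    (p : MonoidAlgebra ℂ A) : trc (Op ι p) = ∫ ω, Ev (χ ω) p ∂μ := by
  rw [trc_Op ι hι, int_Ev hU]

/-- the moments -/
lemma mom_Op [IsProbabilityMeasure μ] (hι : Function.Injective ι) (hU : Unif μ χ)
    (β σ : MonoidAlgebra ℂ A) (b s : Ω → ℝ) (hb : ∀ ω, Ev (χ ω) β = b ω)
    (hs : ∀ ω, Ev (χ ω) σ = s ω) (k : ℕ) :
    ⟪dl (1:G), (Op ι β ^ k) (Op ι σ (dl 1))⟫_ℂ = ((∫ ω, b ω ^ k * s ω ∂μ : ℝ) : ℂ) := by
  have h1 : ⟪dl (1:G), (Op ι β ^ k) (Op ι σ (dl 1))⟫_ℂ = trc (Op ι (β ^ k * σ)) := by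
    rw [map_mul, map_pow]
    rfl
  rw [h1, trc_eq_int ι hι hU, ← integral_complex_ofReal]
  refine integral_congr_ae (Eventually.of_forall fun ω => ?_)
  simp only
  rw [map_mul, map_pow, hb, hs]
  push_cast
  rfl

/-- the operator of `t p` -/
def Sop (t : G) (p : MonoidAlgebra ℂ A) : E2 G →L[ℂ] E2 G := Lhom G t * Op ι p

lemma Com_Sop (t : G) (p : MonoidAlgebra ℂ A) : Com (Sop ι t p) := (Com_L t).mul (Com_Op ι p)

lemma adj_Sop_mul (t : G) (p : MonoidAlgebra ℂ A) :
    ContinuousLinearMap.adjoint (Sop ι t p) * Sop ι t p = Op ι (pst p * p) := by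
  unfold Sop
  rw [ContinuousLinearMap.mul_def (Lhom G t) (Op ι p), ContinuousLinearMap.adjoint_comp, adj_Op,
    adj_L]
  show (Op ι (pst p) * Lhom G t⁻¹) * (Lhom G t * Op ι p) = _
  rw [mul_assoc, ← mul_assoc (Lhom G t⁻¹), ← map_mul, inv_mul_cancel, map_one, one_mul, map_mul]

lemma Lhom_Pr (X : Set G) (t : G) :
    Lhom G t * Pr X = Pr {y | t⁻¹ * y ∈ X} * Lhom G t := by
  classical
  ext1 f
  apply lp.ext
  funext y
  show Pr X f (t⁻¹ * y) = Pr {y | t⁻¹ * y ∈ X} (Lt t f) y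
  rw [Pr_apply, Pr_apply]
  simp only [Set.mem_setOf_eq, Lt_apply]

lemma Op_Pr (p : MonoidAlgebra ℂ A) :
    Op ι p * Pr (Set.range ι) = Pr (Set.range ι) * Op ι p := by
  induction p using MonoidAlgebra.induction_linear with
  | zero => simp
  | add p q hp hq => rw [map_add, add_mul, mul_add, hp, hq]
  | single a c =>
    rw [Op_single, smul_mul_assoc, mul_smul_comm, Lhom_Pr]
    congr 3
    ext y
    simp only [Set.mem_setOf_eq, Set.mem_range]
    constructor
    · rintro ⟨b, hb⟩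
      exact ⟨a * b, by rw [map_mul, hb]; group⟩
    · rintro ⟨b, rfl⟩
      exact ⟨a⁻¹ * b, by rw [map_mul, map_inv]⟩

lemma Pr_dl_one : Pr (Set.range ι) (dl (1:G)) = dl 1 := by
  classical
  apply lp.ext
  funext y
  rw [Pr_apply, dl_apply]
  by_cases hy : y = 1
  · subst hy
    rw [if_pos (show (1:G) ∈ Set.range ι from ⟨1, map_one ι⟩)]
  · rw [if_neg hy]
    split_ifs <;> rfl

lemma orth_Sop {I : Type*} (s : Finset I) (t : I → G) (P : I → MonoidAlgebra ℂ A)
    (ht : ∀ i ∈ s, ∀ j ∈ s, i ≠ j → (t i)⁻¹ * t j ∉ Set.range ι) (u : E2 G)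
    (hu : Pr (Set.range ι) u = u) :
    ‖(∑ i ∈ s, Sop ι (t i) (P i)) u‖ ^ 2 = ∑ i ∈ s, ‖Sop ι (t i) (P i) u‖ ^ 2 := by
  classical
  rw [_root_.sum_apply]
  apply norm_sq_sum
  intro i hi j hj hij
  have h1 : ∀ k : I, Sop ι (t k) (P k) u
      = Pr {y | (t k)⁻¹ * y ∈ Set.range ι} (Sop ι (t k) (P k) u) := by
    intro k
    have h2 : Sop ι (t k) (P k) * Pr (Set.range ι)
        = Pr {y | (t k)⁻¹ * y ∈ Set.range ι} * Sop ι (t k) (P k) := by
      unfold Sop
      rw [mul_assoc, Op_Pr, ← mul_assoc, Lhom_Pr, mul_assoc]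
    have h3 := congrArg (fun T : E2 G →L[ℂ] E2 G => T u) h2
    have h4 : Sop ι (t k) (P k) (Pr (Set.range ι) u)
      = Pr {y | (t k)⁻¹ * y ∈ Set.range ι} (Sop ι (t k) (P k) u) := h3
    rw [hu] at h4
    exact h4
  rw [h1 i, h1 j, lp.inner_eq_tsum]
  have h4 : ∀ x : G, ⟪(Pr {y | (t i)⁻¹ * y ∈ Set.range ι} (Sop ι (t i) (P i) u)) x,
      (Pr {y | (t j)⁻¹ * y ∈ Set.range ι} (Sop ι (t j) (P j) u)) x⟫_ℂ = 0 := by
    intro x
    rw [Pr_apply, Pr_apply]
    by_cases hx : x ∈ {y | (t i)⁻¹ * y ∈ Set.range ι}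
    · have hx2 : x ∉ {y | (t j)⁻¹ * y ∈ Set.range ι} := by
        intro h
        obtain ⟨a, ha⟩ := hx
        obtain ⟨b, hb⟩ := h
        refine ht i hi j hj hij ⟨a * b⁻¹, ?_⟩
        rw [map_mul, map_inv, ha, hb]
        group
      rw [if_neg hx2, inner_zero_right]
    · rw [if_neg hx, inner_zero_left]
  simp only [h4, tsum_zero]

end Pool.Agent.D0H79.LV
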