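import Pool.Agent.D0H79.LV.Bnd
import Pool.Agent.D0H79.KC.Sh

/-!
The integers: the uniformly distributed character, and an example in the infinite dihedral group.
-/

set_option autoImplicit false
set_option linter.unusedSectionVars false

open scoped InnerProductSpace
open Filter Topology MeasureTheory

noncomputable section

namespace Pool.Agent.D0H79.LV

open H61R3NG Pool.Agent.D0H79.KC

/-- the character `n ↦ exp(2 π i n s)` of the integers -/
def chr (s : ℝ) : Multiplicative ℤ →* Circle :=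
  zpowersHom Circle (Circle.exp (2 * Real.pi * s))

lemma chr_apply (s : ℝ) (n : Multiplicative ℤ) :
    (chr s n : ℂ) = Complex.exp (2 * Real.pi * Complex.I * (n.toAdd : ℂ) * s) := by
  have h1 : chr s n = Circle.exp (2 * Real.pi * s) ^ n.toAdd := rfl
  rw [h1, Circle.coe_zpow, Circle.coe_exp, ← Complex.exp_int_mul]
  congr 1
  push_cast
  ring

/-- the uniform distribution on the unit interval -/
abbrev uni : Measure ℝ := volume.restrict (Set.Icc (0:ℝ) 1)

instance uni_prob : IsProbabilityMeasure uni := by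
  constructor
  simp [uni]

lemma unif_chr : Unif uni chr := by
  constructor
  · intro a
    simp only [chr_apply]
    fun_prop
  · intro a ha
    have hn : (a.toAdd : ℂ) ≠ 0 := by
      intro h
      apply ha
      have h2 : a.toAdd = 0 := by exact_mod_cast h
      exact h2
    have hc : 2 * Real.pi * Complex.I * (a.toAdd : ℂ) ≠ 0 := by
      refine mul_ne_zero (mul_ne_zero (mul_ne_zero two_ne_zero ?_) Complex.I_ne_zero) hn
      exact_mod_cast Real.pi_pos.ne'
    simp only [chr_apply, uni]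
    rw [integral_Icc_eq_integral_Ioc, ← intervalIntegral.integral_of_le zero_le_one]
    have h1 := integral_exp_mul_complex (a := 0) (b := 1) hc
    rw [h1]
    have h2 : Complex.exp (2 * Real.pi * Complex.I * (a.toAdd : ℂ) * ((1:ℝ) : ℂ)) = 1 := by
      rw [Complex.exp_eq_one_iff]
      exact ⟨a.toAdd, by push_cast; ring⟩
    rw [h2]
    simp

lemma zpowers_inj {G : Type*} [Group G] (g : G) (hg : ¬ IsOfFinOrder g) :
    Function.Injective (zpowersHom G g) := by
  rw [injective_iff_map_eq_one]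
  intro a ha
  have h1 : g ^ a.toAdd = 1 := ha
  by_contra h
  apply hg
  rw [isOfFinOrder_iff_zpow_eq_one]
  exact ⟨a.toAdd, fun h0 => h h0, h1⟩

/-- an invariant subspace of dimension zero is zero -/
lemma kd_zero_imp {G : Type*} [Group G] (V : Submodule ℂ (E2 G)) [V.HasOrthogonalProjection]
    (hV : RInv V) (h : kd V = 0) (f : E2 G) (hf : f ∈ V) : f = 0 := by
  have h1 : V.starProjection (dl (1:G)) = 0 := by
    have h2 : ‖V.starProjection (dl (1:G))‖ ^ 2 = 0 := h
    exact norm_eq_zero.1 ((pow_eq_zero_iff two_ne_zero).1 h2)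
  apply lp.ext
  funext x
  have h2 : V.starProjection (dl x) = 0 := by
    have h3 : dl x = Rt x⁻¹ (dl (1:G)) := by rw [Rt_dl]; simp
    rw [h3, proj_Rt hV, h1, map_zero]
  have h4 : ⟪dl x, f⟫_ℂ = f x := inner_dl_left x f
  rw [← h4, ← Submodule.starProjection_eq_self_iff.2 hf,
    ← Submodule.inner_starProjection_left_eq_right, h2, inner_zero_left]
  rfl

/-- a lower bound for the dimension -/
lemma kd_ge {G : Type*} [Group G] (V : Submodule ℂ (E2 G)) [V.HasOrthogonalProjection] (f : E2 G)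
    (hf : f ∈ V) : 1 - ‖dl (1:G) - f‖ ^ 2 ≤ kd V := by
  have h1 := kd_infDist V
  have h2 : Metric.infDist (dl (1:G)) (V : Set (E2 G)) ≤ ‖dl (1:G) - f‖ := by
    rw [← dist_eq_norm]
    exact Metric.infDist_le_dist_of_mem hf
  have h3 := pow_le_pow_left₀ Metric.infDist_nonneg h2 2
  have h4 : 1 - Metric.infDist (dl (1:G)) (V : Set (E2 G)) ^ 2 = kd V := h1
  linarith

open DihedralGroup in
/-- a vector of the kernel -/
lemma dih_ker (a : ℂ) (T : E2 (DihedralGroup 0) →L[ℂ] E2 (DihedralGroup 0))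
    (hT : T = Lhom _ (r 1) - a • Lhom _ (r 0) + (Lhom _ (sr 0) - a • Lhom _ (sr 1))) :
    T ((1 / 2 : ℂ) • (dl (r 0) - dl (sr 1))) = 0 := by
  rw [map_smul, map_sub]
  have h1 : ∀ x y : DihedralGroup 0, Lhom _ x (dl y) = dl (x * y) := fun x y => Lt_dl x y
  have h2 : ∀ y : DihedralGroup 0, T (dl y) = dl (r 1 * y) - a • dl (r 0 * y)
      + (dl (sr 0 * y) - a • dl (sr 1 * y)) := by
    intro y
    rw [hT]
    show Lhom _ (r 1) (dl y) - a • Lhom _ (r 0) (dl y)
      + (Lhom _ (sr 0) (dl y) - a • Lhom _ (sr 1) (dl y)) = _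
    rw [h1, h1, h1, h1]
  rw [h2, h2]
  simp only [r_mul_r, sr_mul_r, r_mul_sr, sr_mul_sr, add_zero, sub_zero, sub_self, zero_add]
  rw [smul_eq_zero]
  right
  abel

open DihedralGroup in
/-- the distance of that vector from the basis vector at the identity -/
lemma dih_dist : ‖dl (1 : DihedralGroup 0) - (1 / 2 : ℂ) • (dl (r 0) - dl (sr 1))‖ ^ 2 = 1 / 2 := by
  have h0 : dl (1 : DihedralGroup 0) - (1 / 2 : ℂ) • (dl (r 0) - dl (sr 1))
      = (1 / 2 : ℂ) • (dl (r 0) + dl (sr 1)) := by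
    have h1 : (1 : DihedralGroup 0) = r 0 := rfl
    rw [h1]
    module
  have hne : (r 0 : DihedralGroup 0) ≠ sr 1 := by
    intro h
    cases h
  have h3 : ⟪(dl (r 0) : E2 (DihedralGroup 0)), dl (sr 1)⟫_ℂ = 0 := by
    rw [inner_dl_left, dl_apply, if_neg hne]
  rw [h0, norm_smul, mul_pow]
  have h4 : ‖(dl (r 0) : E2 (DihedralGroup 0)) + dl (sr 1)‖ ^ 2 = 2 := by
    rw [@norm_add_sq ℂ, h3, norm_dl, norm_dl]
    norm_num
  rw [h4]
  norm_num

/-- a comparison of two linear polynomials on the unit circle -/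
lemma lin_le (a z : ℂ) (hz : ‖z‖ = 1) :
    ‖z - a‖ ^ 2 ≤ ‖1 - a * z‖ ^ 2 ↔ 0 ≤ a.im * z.im := by
  have h1 : z.re ^ 2 + z.im ^ 2 = 1 := by
    have h2 := Complex.sq_norm z
    rw [hz, Complex.normSq_apply] at h2
    nlinarith
  rw [Complex.sq_norm, Complex.sq_norm, Complex.normSq_apply, Complex.normSq_apply]
  simp only [Complex.sub_re, Complex.sub_im, Complex.mul_re, Complex.mul_im, Complex.one_re,
    Complex.one_im]
  have h3 : (1 - (a.re * z.re - a.im * z.im)) * (1 - (a.re * z.re - a.im * z.im))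
      + (0 - (a.re * z.im + a.im * z.re)) * (0 - (a.re * z.im + a.im * z.re))
      - ((z.re - a.re) * (z.re - a.re) + (z.im - a.im) * (z.im - a.im))
      = 4 * (a.im * z.im) + (a.re ^ 2 + a.im ^ 2) * (z.re ^ 2 + z.im ^ 2 - 1)
        + (1 - (z.re ^ 2 + z.im ^ 2)) := by ring
  rw [h1] at h3
  constructor <;> intro h <;> linarith

lemma chr_one_im (s : ℝ) : (chr s (Multiplicative.ofAdd 1) : ℂ).im = Real.sin (2 * Real.pi * s) := by
  have h1 : chr s (Multiplicative.ofAdd 1) = Circle.exp (2 * Real.pi * s) := by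
    show Circle.exp (2 * Real.pi * s) ^ (1 : ℤ) = _
    rw [zpow_one]
  rw [h1, Circle.coe_exp, Complex.exp_ofReal_mul_I_im]

lemma ev_P0 (a : ℂ) (ψ : Multiplicative ℤ →* Circle) (P : Multiplicative ℤ →₀ ℂ)
    (hP : P = Finsupp.single (Multiplicative.ofAdd 1) 1 - Finsupp.single 1 a) :
    Ev ψ (MonoidAlgebra.ofCoeff P) = (ψ (Multiplicative.ofAdd 1) : ℂ) - a := by
  have h1 : (MonoidAlgebra.ofCoeff P) = (MonoidAlgebra.single (Multiplicative.ofAdd 1) 1
      - MonoidAlgebra.single 1 a : MonoidAlgebra ℂ (Multiplicative ℤ)) := by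
    rw [hP]
    rfl
  rw [h1, map_sub, Ev_single, Ev_single, map_one ψ, one_mul]
  simp

lemma ev_P1 (a : ℂ) (ψ : Multiplicative ℤ →* Circle) (P : Multiplicative ℤ →₀ ℂ)
    (hP : P = Finsupp.single 1 1 - Finsupp.single (Multiplicative.ofAdd 1) a) :
    Ev ψ (MonoidAlgebra.ofCoeff P) = 1 - a * (ψ (Multiplicative.ofAdd 1) : ℂ) := by
  have h1 : (MonoidAlgebra.ofCoeff P) = (MonoidAlgebra.single 1 1
      - MonoidAlgebra.single (Multiplicative.ofAdd 1) a : MonoidAlgebra ℂ (Multiplicative ℤ)) := by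
    rw [hP]
    rfl
  rw [h1, map_sub, Ev_single, Ev_single, map_one ψ, one_mul]
  simp

open DihedralGroup in
lemma dih_op (a : ℂ) (P Q : Multiplicative ℤ →₀ ℂ)
    (hP : P = Finsupp.single (Multiplicative.ofAdd 1) 1 - Finsupp.single 1 a)
    (hQ : Q = Finsupp.single 1 1 - Finsupp.single (Multiplicative.ofAdd 1) a) :
    Sop (zpowersHom (DihedralGroup 0) (r 1)) 1 (MonoidAlgebra.ofCoeff P)
      + Sop (zpowersHom (DihedralGroup 0) (r 1)) (sr 0) (MonoidAlgebra.ofCoeff Q)
      = Lhom _ (r 1) - a • Lhom _ (r 0) + (Lhom _ (sr 0) - a • Lhom _ (sr 1)) := by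
  have h1 : (MonoidAlgebra.ofCoeff P) = (MonoidAlgebra.single (Multiplicative.ofAdd 1) 1
      - MonoidAlgebra.single 1 a : MonoidAlgebra ℂ (Multiplicative ℤ)) := by
    rw [hP]
    rfl
  have h2 : (MonoidAlgebra.ofCoeff Q) = (MonoidAlgebra.single 1 1
      - MonoidAlgebra.single (Multiplicative.ofAdd 1) a : MonoidAlgebra ℂ (Multiplicative ℤ)) := by
    rw [hQ]
    rfl
  have h3 : zpowersHom (DihedralGroup 0) (r 1) (Multiplicative.ofAdd 1) = r 1 := by
    show (r 1 : DihedralGroup 0) ^ (1 : ℤ) = r 1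
    rw [zpow_one]
  have h4 : zpowersHom (DihedralGroup 0) (r 1) 1 = r 0 := map_one _
  unfold Sop
  rw [h1, h2, map_sub, map_sub, Op_single, Op_single, Op_single, Op_single, h3, h4, mul_sub,
    mul_sub, map_one (Lhom _), one_mul, one_mul, one_smul, one_smul, mul_smul_comm, ← map_mul,
    ← map_mul]
  rfl

lemma half_meas (a : ℝ) (ha : a ≠ 0) :
    uni.real {s : ℝ | 0 ≤ a * Real.sin (2 * Real.pi * s)} = 1 / 2 := by
  have hpi := Real.pi_pos
  have hms : MeasurableSet {s : ℝ | 0 ≤ a * Real.sin (2 * Real.pi * s)} :=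
    measurableSet_le measurable_const (by fun_prop)
  rw [measureReal_def, Measure.restrict_apply hms]
  have hpos : ∀ s : ℝ, 0 < s → s < 1 / 2 → 0 < Real.sin (2 * Real.pi * s) := fun s h0 h1 =>
    Real.sin_pos_of_pos_of_lt_pi (by positivity) (by nlinarith)
  have hneg : ∀ s : ℝ, 1 / 2 < s → s < 1 → Real.sin (2 * Real.pi * s) < 0 := by
    intro s h0 h1
    have h2 : Real.sin (2 * Real.pi * s) = Real.sin (2 * Real.pi * s - 2 * Real.pi) :=
      (Real.sin_sub_two_pi _).symm
    rw [h2]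
    exact Real.sin_neg_of_neg_of_neg_pi_lt (by nlinarith) (by nlinarith)
  have hae : ∀ x : ℝ, ∀ᵐ s : ℝ, s ≠ x := fun x => by
    rw [ae_iff]
    have : {s : ℝ | ¬ s ≠ x} = {x} := by
      ext s
      simp
    rw [this]
    exact Real.volume_singleton
  rcases lt_or_gt_of_ne ha with h | h
  · have h1 : ({s : ℝ | 0 ≤ a * Real.sin (2 * Real.pi * s)} ∩ Set.Icc 0 1 : Set ℝ)
        =ᵐ[volume] (Set.Icc (1 / 2) 1 : Set ℝ) := by
      filter_upwards [hae 0, hae (1 / 2), hae 1] with s h2 h3 h4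
      rw [eq_iff_iff]
      constructor
      · rintro ⟨h5, h6, h7⟩
        have h5' : 0 ≤ a * Real.sin (2 * Real.pi * s) := h5
        refine ⟨?_, h7⟩
        by_contra h8
        have h9 := hpos s (lt_of_le_of_ne h6 h2.symm) (not_le.1 h8)
        nlinarith
      · rintro ⟨h5, h6⟩
        refine ⟨?_, by linarith, h6⟩
        have h9 := hneg s (lt_of_le_of_ne h5 h3.symm) (lt_of_le_of_ne h6 h4)
        show 0 ≤ a * Real.sin (2 * Real.pi * s)
        nlinarith
    rw [measure_congr h1, Real.volume_Icc, ENNReal.toReal_ofReal (by norm_num)]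
    norm_num
  · have h1 : ({s : ℝ | 0 ≤ a * Real.sin (2 * Real.pi * s)} ∩ Set.Icc 0 1 : Set ℝ)
        =ᵐ[volume] (Set.Icc 0 (1 / 2) : Set ℝ) := by
      filter_upwards [hae 0, hae (1 / 2), hae 1] with s h2 h3 h4
      rw [eq_iff_iff]
      constructor
      · rintro ⟨h5, h6, h7⟩
        have h5' : 0 ≤ a * Real.sin (2 * Real.pi * s) := h5
        refine ⟨h6, ?_⟩
        by_contra h8
        have h9 := hneg s (not_le.1 h8) (lt_of_le_of_ne h7 h4)
        nlinarith
      · rintro ⟨h5, h6⟩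
        refine ⟨?_, h5, by linarith⟩
        have h9 := hpos s (lt_of_le_of_ne h5 h2.symm) (lt_of_le_of_ne h6 h3)
        show 0 ≤ a * Real.sin (2 * Real.pi * s)
        nlinarith
    rw [measure_congr h1, Real.volume_Icc, ENNReal.toReal_ofReal (by norm_num)]
    norm_num

end Pool.Agent.D0H79.LV
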